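import Pool.Agent.Y503.RB.Def2

/-!
Project RB: local normal frames (LF), by the Gram-Schmidt process.
-/

set_option autoImplicit false

namespace Pool.Agent.Y297.RB

open scoped ContDiff RealInnerProductSpace
open Pool.Agent.Y503.RB Set Module

/-- one step of the Gram-Schmidt process -/
noncomputable def gs (X e : ℂ → E4) (w : ℂ) : E4 := X w - (⟪e w, X w⟫ / ⟪e w, e w⟫) • e w

theorem gs_smooth {X e : ℂ → E4} {U : Set ℂ} (hX : ContDiffOn ℝ ∞ X U)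
    (he : ContDiffOn ℝ ∞ e U) (h0 : ∀ w ∈ U, e w ≠ 0) : ContDiffOn ℝ ∞ (gs X e) U :=
  hX.sub (((he.inner ℝ hX).div (he.inner ℝ he)
    (fun w hw => inner_self_ne_zero.2 (h0 w hw))).smul he)

theorem gs_orth (X : ℂ → E4) {e : ℂ → E4} {w : ℂ} (h0 : e w ≠ 0) : ⟪e w, gs X e w⟫ = 0 := by
  have h := inner_self_ne_zero (𝕜 := ℝ).2 h0
  rw [gs, inner_sub_right, inner_smul_right, div_mul_cancel₀ _ h, sub_self]

theorem gs_keep {X e : ℂ → E4} {w : ℂ} {y : E4} (h1 : ⟪y, X w⟫ = 0) (h2 : ⟪y, e w⟫ = 0) :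
    ⟪y, gs X e w⟫ = 0 := by
  rw [gs, inner_sub_right, inner_smul_right, h1, h2, mul_zero, sub_zero]

theorem gs_self {X e : ℂ → E4} {w : ℂ} (h : ⟪e w, X w⟫ = 0) : gs X e w = X w := by
  rw [gs, h, zero_div, zero_smul, sub_zero]

/-- two orthonormal vectors orthogonal to two given vectors -/
theorem exists_normal (a b : E4) : ∃ n₁ n₂ : E4, ‖n₁‖ = 1 ∧ ‖n₂‖ = 1 ∧ ⟪n₁, n₂⟫ = 0 ∧
    ⟪a, n₁⟫ = 0 ∧ ⟪b, n₁⟫ = 0 ∧ ⟪a, n₂⟫ = 0 ∧ ⟪b, n₂⟫ = 0 := by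
  classical
  let K : Submodule ℝ E4 := Submodule.span ℝ {a, b}
  have h1 : finrank ℝ K ≤ 2 := by
    have h := finrank_span_finset_le_card (R := ℝ) (M := E4) ({a, b} : Finset E4)
    have h2 : (({a, b} : Finset E4) : Set E4) = {a, b} := by simp
    rw [Set.finrank, h2] at h
    exact h.trans Finset.card_le_two
  have h2 : finrank ℝ K + finrank ℝ Kᗮ = 4 := by
    rw [Submodule.finrank_add_finrank_orthogonal K]
    simp
  let B := stdOrthonormalBasis ℝ Kᗮ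
  have h3 : ∀ i, ⟪a, (B i : E4)⟫ = 0 := fun i =>
    (B i).2 a (Submodule.subset_span (by simp))
  have h4 : ∀ i, ⟪b, (B i : E4)⟫ = 0 := fun i =>
    (B i).2 b (Submodule.subset_span (by simp))
  have h5 : ∀ i, ‖(B i : E4)‖ = 1 := fun i => by
    have := B.orthonormal.1 i
    rwa [Submodule.coe_norm] at *
  have h6 : ⟪((B ⟨0, by omega⟩ : Kᗮ) : E4), ((B ⟨1, by omega⟩ : Kᗮ) : E4)⟫ = 0 := by
    have : ⟪B ⟨0, by omega⟩, B ⟨1, by omega⟩⟫ = 0 :=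
      B.orthonormal.2 (i := ⟨0, by omega⟩) (j := ⟨1, by omega⟩) (by simp)
    rwa [Submodule.coe_inner] at this
  exact ⟨_, _, h5 _, h5 _, h6, h3 _, h4 _, h3 _, h4 _⟩

theorem lf : St_LF := by
  intro φ U hφ z hz
  have hU := hφ.isOpen
  have hd : ∀ v : ℂ, ContDiffOn ℝ ∞ (fun w => d1 φ v w) U := by
    intro v
    have h : ContDiffOn ℝ ∞ (fderiv ℝ φ) U := hφ.smooth.fderiv_of_isOpen hU (by simp)
    exact h.clm_apply contDiffOn_const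
  have ha := hd 1
  have hb := hd Complex.I
  have hv : ∀ (w v : ℂ), d1 φ v w = v.re • d1 φ 1 w + v.im • d1 φ Complex.I w := by
    intro w v
    have hv : v = v.re • (1 : ℂ) + v.im • Complex.I := by
      apply Complex.ext <;> simp
    unfold d1
    conv_lhs => rw [hv]
    rw [map_add, map_smul, map_smul]
  set a : ℂ → E4 := fun w => d1 φ 1 w with ea
  set b : ℂ → E4 := fun w => d1 φ Complex.I w with eb
  have ha0 : ∀ w ∈ U, a w ≠ 0 := by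
    intro w hw h
    have := hφ.imm w hw (a₁ := 1) (a₂ := 0) (by rw [map_zero]; exact h)
    exact one_ne_zero this
  let e₂ : ℂ → E4 := gs b a
  have he₂ : ContDiffOn ℝ ∞ e₂ U := gs_smooth hb ha ha0
  have he0 : ∀ w ∈ U, e₂ w ≠ 0 := by
    intro w hw h
    have h1 : fderiv ℝ φ w (Complex.I - (⟪a w, b w⟫ / ⟪a w, a w⟫) • (1 : ℂ)) = 0 := by
      rw [map_sub, map_smul]
      exact h
    have h2 := hφ.imm w hw (h1.trans (map_zero (fderiv ℝ φ w)).symm)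
    generalize ⟪a w, b w⟫ / ⟪a w, a w⟫ = c at h2
    have h3 := congrArg Complex.im h2
    rw [Complex.sub_im, Complex.smul_im] at h3
    simp at h3
  obtain ⟨n₁, n₂, u1, u2, u3, u4, u5, u6, u7⟩ := exists_normal (a z) (b z)
  let M₁ : ℂ → E4 := gs (gs (fun _ => n₁) a) e₂
  have hM₁ : ContDiffOn ℝ ∞ M₁ U := gs_smooth (gs_smooth contDiffOn_const ha ha0) he₂ he0
  have e₂z : ∀ n : E4, ⟪a z, n⟫ = 0 → ⟪b z, n⟫ = 0 → ⟪e₂ z, n⟫ = 0 := by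
    intro n h1 h2
    rw [real_inner_comm]
    exact gs_keep (by rw [real_inner_comm]; exact h2) (by rw [real_inner_comm]; exact h1)
  have gz : ∀ n : E4, ⟪a z, n⟫ = 0 → gs (fun _ => n) a z = n := fun n h => gs_self h
  have M₁z : M₁ z = n₁ := by
    have h : gs (fun _ => n₁) a z = n₁ := gz n₁ u4
    show gs (gs (fun _ => n₁) a) e₂ z = n₁
    rw [gs_self (by rw [h]; exact e₂z n₁ u4 u5), h]
  have hn1 : n₁ ≠ 0 := fun h => by rw [h] at u1; simp at u1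
  have hn2 : n₂ ≠ 0 := fun h => by rw [h] at u2; simp at u2
  let U₁ : Set ℂ := U ∩ M₁ ⁻¹' {0}ᶜ
  have hU₁ : IsOpen U₁ := hM₁.continuousOn.isOpen_inter_preimage hU isOpen_compl_singleton
  have hs₁ : U₁ ⊆ U := inter_subset_left
  have hz₁ : z ∈ U₁ := ⟨hz, by simpa [M₁z] using hn1⟩
  have hM0 : ∀ w ∈ U₁, M₁ w ≠ 0 := fun w hw => hw.2
  let M₂ : ℂ → E4 := gs (gs (gs (fun _ => n₂) a) e₂) M₁
  have hM₂ : ContDiffOn ℝ ∞ M₂ U₁ :=
    gs_smooth ((gs_smooth (gs_smooth contDiffOn_const ha ha0) he₂ he0).mono hs₁)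
      (hM₁.mono hs₁) hM0
  have M₂z : M₂ z = n₂ := by
    have h : gs (fun _ => n₂) a z = n₂ := gz n₂ u6
    have h' : gs (gs (fun _ => n₂) a) e₂ z = n₂ := by
      rw [gs_self (by rw [h]; exact e₂z n₂ u6 u7), h]
    show gs (gs (gs (fun _ => n₂) a) e₂) M₁ z = n₂
    rw [gs_self (by rw [h', M₁z]; exact u3), h']
  let U' : Set ℂ := U₁ ∩ M₂ ⁻¹' {0}ᶜ
  have hU' : IsOpen U' := hM₂.continuousOn.isOpen_inter_preimage hU₁ isOpen_compl_singleton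
  have hs' : U' ⊆ U₁ := inter_subset_left
  have hz' : z ∈ U' := ⟨hz₁, by simpa [M₂z] using hn2⟩
  have hM0' : ∀ w ∈ U', M₂ w ≠ 0 := fun w hw => hw.2
  -- orthogonality
  have o12 : ∀ w ∈ U, ⟪a w, e₂ w⟫ = 0 := fun w hw => gs_orth _ (ha0 w hw)
  have oaM₁ : ∀ w ∈ U, ⟪a w, M₁ w⟫ = 0 := fun w hw =>
    gs_keep (gs_orth _ (ha0 w hw)) (o12 w hw)
  have oeM₁ : ∀ w ∈ U, ⟪e₂ w, M₁ w⟫ = 0 := fun w hw => gs_orth _ (he0 w hw)
  have oaM₂ : ∀ w ∈ U, ⟪a w, M₂ w⟫ = 0 := fun w hw =>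
    gs_keep (gs_keep (gs_orth _ (ha0 w hw)) (o12 w hw)) (oaM₁ w hw)
  have oeM₂ : ∀ w ∈ U, ⟪e₂ w, M₂ w⟫ = 0 := fun w hw =>
    gs_keep (gs_orth _ (he0 w hw)) (oeM₁ w hw)
  have oMM : ∀ w ∈ U₁, ⟪M₁ w, M₂ w⟫ = 0 := fun w hw => gs_orth _ (hM0 w hw)
  have ob : ∀ w, ∀ y : E4, ⟪a w, y⟫ = 0 → ⟪e₂ w, y⟫ = 0 → ⟪b w, y⟫ = 0 := by
    intro w y h1 h2
    have h3 : b w = e₂ w + (⟪a w, b w⟫ / ⟪a w, a w⟫) • a w := by
      show b w = (b w - (⟪a w, b w⟫ / ⟪a w, a w⟫) • a w) + _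
      rw [sub_add_cancel]
    rw [h3, inner_add_left, inner_smul_left, h1, h2]
    simp
  have od : ∀ w, ∀ y : E4, ⟪a w, y⟫ = 0 → ⟪e₂ w, y⟫ = 0 → ∀ (c : ℝ) (v : ℂ),
      ⟪c • y, d1 φ v w⟫ = 0 := by
    intro w y h1 h2 c v
    have h3 := ob w y h1 h2
    rw [hv w v, inner_smul_left, inner_add_right, inner_smul_right, inner_smul_right,
      real_inner_comm, real_inner_comm (b w)]
    rw [show ⟪d1 φ 1 w, y⟫ = 0 from h1, show ⟪b w, y⟫ = 0 from h3]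
    simp
  refine ⟨U', hs'.trans hs₁, hz', hU', fun w => ‖M₁ w‖⁻¹ • M₁ w, fun w => ‖M₂ w‖⁻¹ • M₂ w, ?_⟩
  have hunit : ∀ y : E4, y ≠ 0 → ‖‖y‖⁻¹ • y‖ = 1 := fun y hy => by
    rw [norm_smul, norm_inv, norm_norm, inv_mul_cancel₀ (norm_ne_zero_iff.2 hy)]
  refine ⟨?_, ?_, ?_, ?_, ?_, ?_, ?_⟩
  · have h := (hM₁.mono (hs'.trans hs₁))
    exact ((h.norm ℝ (fun w hw => hM0 w (hs' hw))).inv
      (fun w hw => norm_ne_zero_iff.2 (hM0 w (hs' hw)))).smul h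
  · have h := (hM₂.mono hs')
    exact ((h.norm ℝ (fun w hw => hM0' w hw)).inv
      (fun w hw => norm_ne_zero_iff.2 (hM0' w hw))).smul h
  · exact fun w hw => hunit _ (hM0 w (hs' hw))
  · exact fun w hw => hunit _ (hM0' w hw)
  · intro w hw
    rw [inner_smul_left, inner_smul_right, oMM w (hs' hw)]
    simp
  · intro w hw v
    exact od w _ (oaM₁ w (hs₁ (hs' hw))) (oeM₁ w (hs₁ (hs' hw))) _ v
  · intro w hw v
    exact od w _ (oaM₂ w (hs₁ (hs' hw))) (oeM₂ w (hs₁ (hs' hw))) _ v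

end Pool.Agent.Y297.RB
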